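import Mathlib
import Pool.Agent.NFlat82.Data

set_option autoImplicit false

namespace Pool.Agent.Results.MP_cc349e_co.MultiScaleIntervals

open Pool.Agent.NFlat82

/-- Partial answer to Q1 (existence side): for every `N ≥ 5 · 10 ^ 13` some `N`-flat set
`A ⊆ [N]` has at least `3 √N` elements. -/
theorem result (N : ℕ) (hN : 5 * 10 ^ 13 ≤ N) :
    ∃ A : Finset ℤ, A ⊆ Finset.Icc 1 (N : ℤ) ∧ NFlat N A ∧
      3 * Real.sqrt (N : ℝ) ≤ (A.card : ℝ) := by
  set q := Nat.sqrt (N / 104857600) with hq
  have h1 : q * q ≤ N / 104857600 := Nat.sqrt_le _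
  have h2 : N / 104857600 < (q + 1) * (q + 1) := Nat.lt_succ_sqrt _
  have h3 : 104857600 * (q * q) ≤ N := by
    have := Nat.div_mul_le_self N 104857600
    nlinarith
  have h4 : N < 104857600 * ((q + 1) * (q + 1)) := by
    have h5 : N < 104857600 * (N / 104857600 + 1) := by
      have := Nat.lt_div_mul_add (a := N) (b := 104857600) (by norm_num)
      omega
    have h6 : 104857600 * (N / 104857600 + 1) ≤ 104857600 * ((q + 1) * (q + 1)) :=
      Nat.mul_le_mul_left _ h2
    omega
  have hq1 : 683 ≤ q := by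
    rw [hq, Nat.le_sqrt]
    omega
  refine ⟨blowup q blocks, ?_, ?_, ?_⟩
  · have e1 := blowup_subset (q := q) (endB_spec endB_blocks)
    refine e1.trans (Finset.Icc_subset_Icc le_rfl ?_)
    have : 104857600 * q ≤ N := by nlinarith
    exact_mod_cast this
  · have e1 := nflat_blowup (q := q) sorted_blocks chkD_blocks chkP_blocks
    exact e1.mono (by nlinarith)
  · have e1 : Real.sqrt (N : ℝ) ≤ 10240 * ((q : ℝ) + 1) := by
      rw [show (10240 * ((q : ℝ) + 1)) = Real.sqrt ((10240 * ((q : ℝ) + 1)) ^ 2) by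
        rw [Real.sqrt_sq (by positivity)]]
      apply Real.sqrt_le_sqrt
      have : (N : ℝ) ≤ 104857600 * (((q : ℝ) + 1) * ((q : ℝ) + 1)) := by
        exact_mod_cast h4.le
      nlinarith
    rw [card_blowup sorted_blocks, total_blocks]
    push_cast
    have hq2 : (683 : ℝ) ≤ q := by exact_mod_cast hq1
    nlinarith

end Pool.Agent.Results.MP_cc349e_co.MultiScaleIntervals
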