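import Mathlib
import Pool.Agent.NFlat82.Core

set_option autoImplicit false

namespace Pool.Agent.Results.MP_cc349e_co.OneSetSuffices

open Pool.Agent.NFlat82

/-- Every element `a` is replaced by the `q` integers `2 q a, 2 q a + 1, …, 2 q a + q - 1`. -/
noncomputable def thick (q : ℕ) (A : Finset ℤ) : Finset ℤ :=
  A.biUnion (fun a => Finset.Ico (2 * (q : ℤ) * a) (2 * (q : ℤ) * a + q))

theorem mem_thick {q : ℕ} {A : Finset ℤ} {x : ℤ} :
    x ∈ thick q A ↔ ∃ a ∈ A, 2 * (q : ℤ) * a ≤ x ∧ x < 2 * (q : ℤ) * a + q := by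
  simp [thick]

theorem card_thick {q : ℕ} {A : Finset ℤ} : (thick q A).card = q * A.card := by
  unfold thick
  rw [Finset.card_biUnion]
  · simp [Int.card_Ico, mul_comm]
  · intro a _ b _ hab
    simp only [Function.onFun]
    rw [Finset.disjoint_left]
    intro x hx hx'
    rw [Finset.mem_Ico] at hx hx'
    apply hab
    have hq : (0 : ℤ) ≤ (q : ℤ) := by positivity
    by_contra hne
    rcases lt_or_gt_of_ne hne with h | h
    · have h1 : a + 1 ≤ b := h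
      have h2 : 2 * (q : ℤ) * (a + 1) ≤ 2 * (q : ℤ) * b := mul_le_mul_of_nonneg_left h1 (by positivity)
      linarith
    · have h1 : b + 1 ≤ a := h
      have h2 : 2 * (q : ℤ) * (b + 1) ≤ 2 * (q : ℤ) * a := mul_le_mul_of_nonneg_left h1 (by positivity)
      linarith

theorem thick_subset {N q : ℕ} {A : Finset ℤ} (hq : 1 ≤ q) (hA : A ⊆ Finset.Icc 1 (N : ℤ)) :
    thick q A ⊆ Finset.Icc 1 ((((6 * N + 3) * q ^ 2 : ℕ)) : ℤ) := by
  intro x hx
  obtain ⟨a, ha, h1, h2⟩ := mem_thick.1 hx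
  have ha' := Finset.mem_Icc.1 (hA ha)
  have hq' : (1 : ℤ) ≤ q := by exact_mod_cast hq
  rw [Finset.mem_Icc]
  push_cast
  constructor
  · nlinarith [ha'.1]
  · have h3 : 2 * (q : ℤ) * a ≤ 2 * (q : ℤ) * N := mul_le_mul_of_nonneg_left ha'.2 (by positivity)
    have h4 : (q : ℤ) ≤ (q : ℤ) ^ 2 := by nlinarith
    have hN : (0 : ℤ) ≤ N := by positivity
    nlinarith [mul_nonneg hN (sub_nonneg.2 h4)]

theorem flat_thick {N q : ℕ} {A : Finset ℤ} (hA : A ⊆ Finset.Icc 1 (N : ℤ)) (h : NFlat N A) :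
    NFlat ((6 * N + 3) * q ^ 2) (thick q A) := by
  intro x h₁ h₂ hx hy hz hw
  obtain ⟨a, ha, a1, a2⟩ := mem_thick.1 hx
  obtain ⟨b, hb, b1, b2⟩ := mem_thick.1 hy
  obtain ⟨c, hc, c1, c2⟩ := mem_thick.1 hz
  obtain ⟨d, hd, d1, d2⟩ := mem_thick.1 hw
  have hq : (0 : ℤ) < (q : ℤ) := by linarith
  -- the four base points form an additive quadruple
  have key : d = b + c - a := by
    have e1 : 2 * (q : ℤ) * (d - b - c + a) < 2 * q * 1 := by linarith
    have e2 : 2 * (q : ℤ) * (-1) < 2 * q * (d - b - c + a) := by linarith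
    have e3 := lt_of_mul_lt_mul_left e1 (by positivity)
    have e4 := lt_of_mul_lt_mul_left e2 (by positivity)
    omega
  have ha' := Finset.mem_Icc.1 (hA ha)
  have hb' := Finset.mem_Icc.1 (hA hb)
  have hc' := Finset.mem_Icc.1 (hA hc)
  have hflat := h a (b - a) (c - a) ha (by convert hb using 1; ring) (by convert hc using 1; ring)
    (by convert hd using 1; rw [key]; ring)
  set u := |b - a| with hu
  set v := |c - a| with hv
  have hu0 : 0 ≤ u := abs_nonneg _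
  have hv0 : 0 ≤ v := abs_nonneg _
  have hN : (0 : ℤ) ≤ N := by positivity
  have huN : u ≤ N := by rw [hu, abs_le]; constructor <;> linarith [ha'.1, ha'.2, hb'.1, hb'.2]
  have hvN : v ≤ N := by rw [hv, abs_le]; constructor <;> linarith [ha'.1, ha'.2, hc'.1, hc'.2]
  have f1 : |h₁| ≤ q * (2 * u + 1) := by
    have g1 : b - a ≤ u := le_abs_self _
    have g2 : -(b - a) ≤ u := neg_le_abs _
    have g3 : (q : ℤ) * (b - a) ≤ q * u := mul_le_mul_of_nonneg_left g1 hq.le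
    have g4 : (q : ℤ) * (-(b - a)) ≤ q * u := mul_le_mul_of_nonneg_left g2 hq.le
    rw [abs_le]
    constructor <;> linarith
  have f2 : |h₂| ≤ q * (2 * v + 1) := by
    have g1 : c - a ≤ v := le_abs_self _
    have g2 : -(c - a) ≤ v := neg_le_abs _
    have g3 : (q : ℤ) * (c - a) ≤ q * v := mul_le_mul_of_nonneg_left g1 hq.le
    have g4 : (q : ℤ) * (-(c - a)) ≤ q * v := mul_le_mul_of_nonneg_left g2 hq.le
    rw [abs_le]
    constructor <;> linarith
  have f3 : |h₁| * |h₂| ≤ (q * (2 * u + 1)) * (q * (2 * v + 1)) :=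
    mul_le_mul f1 f2 (abs_nonneg _) (by positivity)
  have f4 : (2 * u + 1) * (2 * v + 1) ≤ 6 * N + 3 := by
    rcases eq_or_lt_of_le hu0 with hu' | hu'
    · rw [← hu']; linarith
    · rcases eq_or_lt_of_le hv0 with hv' | hv'
      · rw [← hv']; linarith
      · have g1 : 1 ≤ u := hu'
        have g2 : 1 ≤ v := hv'
        nlinarith [mul_nonneg (sub_nonneg.2 g1) (sub_nonneg.2 g2)]
  have f5 : ((q : ℤ) * (2 * u + 1)) * (q * (2 * v + 1)) ≤ (6 * N + 3) * (q : ℤ) ^ 2 := by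
    have := mul_le_mul_of_nonneg_right f4 (sq_nonneg (q : ℤ))
    nlinarith [this]
  push_cast
  linarith

/-- (1) An `N`-flat set in `[N]` gives for every `q ≥ 1` a `(6 N + 3) q ^ 2`-flat set with
`q` times as many elements.
(2) If one single `N`-flat set `A ⊆ [N]` has more than `C √(6 N + 3)` elements, then for all
sufficiently large `M` some `M`-flat set in `[M]` has at least `C √M` elements. -/
theorem result :
    (∀ (N q : ℕ) (A : Finset ℤ), 1 ≤ q → A ⊆ Finset.Icc 1 (N : ℤ) → NFlat N A →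
      ∃ B : Finset ℤ, B ⊆ Finset.Icc 1 ((((6 * N + 3) * q ^ 2 : ℕ)) : ℤ) ∧
        NFlat ((6 * N + 3) * q ^ 2) B ∧ B.card = q * A.card) ∧
    (∀ (C : ℝ) (N : ℕ) (A : Finset ℤ), A ⊆ Finset.Icc 1 (N : ℤ) → NFlat N A →
      C * Real.sqrt (6 * (N : ℝ) + 3) < (A.card : ℝ) →
      ∃ M₀ : ℕ, ∀ M : ℕ, M₀ ≤ M → ∃ B : Finset ℤ, B ⊆ Finset.Icc 1 (M : ℤ) ∧ NFlat M B ∧
        C * Real.sqrt (M : ℝ) ≤ (B.card : ℝ)) := by
  have part1 : ∀ (N q : ℕ) (A : Finset ℤ), 1 ≤ q → A ⊆ Finset.Icc 1 (N : ℤ) → NFlat N A →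
      ∃ B : Finset ℤ, B ⊆ Finset.Icc 1 ((((6 * N + 3) * q ^ 2 : ℕ)) : ℤ) ∧
        NFlat ((6 * N + 3) * q ^ 2) B ∧ B.card = q * A.card :=
    fun N q A hq hA h => ⟨thick q A, thick_subset hq hA, flat_thick hA h, card_thick⟩
  refine ⟨part1, ?_⟩
  intro C N A hA h hC
  set K : ℕ := 6 * N + 3 with hK
  set t : ℝ := Real.sqrt (6 * (N : ℝ) + 3) with ht
  have ht0 : 0 ≤ t := Real.sqrt_nonneg _
  have htK : t ^ 2 = (K : ℝ) := by
    rw [ht, Real.sq_sqrt (by positivity), hK]; push_cast; ring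
  obtain ⟨q₀, hq₀⟩ := exists_nat_gt (C * t / ((A.card : ℝ) - C * t))
  refine ⟨K * (q₀ + 1) ^ 2, fun M hM => ?_⟩
  set q := Nat.sqrt (M / K) with hq
  have hKpos : 0 < K := by omega
  have h1 : q * q ≤ M / K := Nat.sqrt_le _
  have h2 : M / K < (q + 1) * (q + 1) := Nat.lt_succ_sqrt _
  have h3 : K * q ^ 2 ≤ M := by
    have := Nat.div_mul_le_self M K
    calc K * q ^ 2 = (q * q) * K := by ring
      _ ≤ (M / K) * K := Nat.mul_le_mul_right _ h1
      _ ≤ M := this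
  have h4 : M < K * ((q + 1) * (q + 1)) := by
    have h5 : M < K * (M / K + 1) := by
      rw [Nat.mul_comm, Nat.add_mul]
      have := Nat.lt_div_mul_add (a := M) (b := K) hKpos
      omega
    have h6 : K * (M / K + 1) ≤ K * ((q + 1) * (q + 1)) := Nat.mul_le_mul_left _ h2
    omega
  have hq1 : q₀ + 1 ≤ q := by
    rw [hq, Nat.le_sqrt, Nat.le_div_iff_mul_le hKpos]
    calc (q₀ + 1) * (q₀ + 1) * K = K * (q₀ + 1) ^ 2 := by ring
      _ ≤ M := hM
  obtain ⟨B, hB1, hB2, hB3⟩ := part1 N q A (by omega) hA h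
  refine ⟨B, hB1.trans (Finset.Icc_subset_Icc le_rfl (by exact_mod_cast h3)), hB2.mono h3, ?_⟩
  rw [hB3]
  push_cast
  have hq2 : (q₀ : ℝ) + 1 ≤ q := by exact_mod_cast hq1
  have hpos : 0 < (A.card : ℝ) - C * t := by linarith
  have e1 : Real.sqrt (M : ℝ) ≤ t * ((q : ℝ) + 1) := by
    rw [show t * ((q : ℝ) + 1) = Real.sqrt ((t * ((q : ℝ) + 1)) ^ 2) by
      rw [Real.sqrt_sq (by positivity)]]
    apply Real.sqrt_le_sqrt
    have : (M : ℝ) ≤ K * (((q : ℝ) + 1) * ((q : ℝ) + 1)) := by exact_mod_cast h4.le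
    nlinarith [htK]
  rcases le_or_gt C 0 with hC0 | hC0
  · have g1 : C * Real.sqrt (M : ℝ) ≤ 0 := mul_nonpos_of_nonpos_of_nonneg hC0 (Real.sqrt_nonneg _)
    have g2 : (0 : ℝ) ≤ (q : ℝ) * (A.card : ℝ) := by positivity
    linarith
  · have g1 : C * Real.sqrt (M : ℝ) ≤ C * (t * ((q : ℝ) + 1)) :=
      mul_le_mul_of_nonneg_left e1 hC0.le
    have g2 : C * t < q₀ * ((A.card : ℝ) - C * t) := by
      rwa [div_lt_iff₀ hpos] at hq₀
    have g3 : (q₀ : ℝ) * ((A.card : ℝ) - C * t) ≤ q * ((A.card : ℝ) - C * t) :=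
      mul_le_mul_of_nonneg_right (by linarith) hpos.le
    nlinarith

end Pool.Agent.Results.MP_cc349e_co.OneSetSuffices
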