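import Mathlib

namespace Pool.Agent.Results.MP_cc349e_co.SmallDoubling

open Finset

/-- `A` is `N`-flat: every additive quadruple `x, x + h₁, x + h₂, x + h₁ + h₂` lying in `A`
satisfies `|h₁| |h₂| ≤ N`. -/
def IsFlat (N : ℕ) (A : Finset ℤ) : Prop :=
  ∀ x h₁ h₂ : ℤ, x ∈ A → x + h₁ ∈ A → x + h₂ ∈ A → x + h₁ + h₂ ∈ A →
    |h₁| * |h₂| ≤ (N : ℤ)

/-- The difference set `A - A`. -/
def diffSet (A : Finset ℤ) : Finset ℤ := (A ×ˢ A).image (fun p => p.1 - p.2)

/-- number of representations of `h` as a difference -/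
def rep (A : Finset ℤ) (h : ℤ) : ℕ := #{p ∈ A ×ˢ A | p.1 - p.2 = h}

theorem sum_rep (A : Finset ℤ) : A.card ^ 2 = ∑ h ∈ diffSet A, rep A h := by
  have := Finset.card_eq_sum_card_image (fun p : ℤ × ℤ => p.1 - p.2) (A ×ˢ A)
  rw [Finset.card_product] at this
  rw [sq, this]
  rfl

theorem rep_le_filter (A : Finset ℤ) (h : ℤ) :
    rep A h ≤ #{x ∈ A | x + h ∈ A} := by
  unfold rep
  apply Finset.card_le_card_of_injOn (fun p => p.2)
  · intro p hp
    simp only [Finset.coe_filter, Finset.mem_product, Set.mem_ofPred_eq] at hp ⊢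
    refine ⟨hp.1.2, ?_⟩
    have : p.2 + h = p.1 := by omega
    rw [this]
    exact hp.1.1
  · intro p hp q hq hpq
    simp only [Finset.coe_filter, Finset.mem_product, Set.mem_ofPred_eq] at hp hq hpq
    ext
    · omega
    · exact hpq

theorem rep_le_card (A : Finset ℤ) (h : ℤ) : rep A h ≤ A.card :=
  (rep_le_filter A h).trans (Finset.card_le_card (Finset.filter_subset _ _))

theorem rep_mul_le {N : ℕ} {A : Finset ℤ} (hA : IsFlat N A) (h : ℤ) :
    rep A h * h.natAbs ≤ N + h.natAbs := by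
  refine (Nat.mul_le_mul_right _ (rep_le_filter A h)).trans ?_
  set B : Finset ℤ := {x ∈ A | x + h ∈ A} with hB
  rcases B.eq_empty_or_nonempty with h0 | h0
  · rw [h0]; simp
  · have hm := B.min'_mem h0
    have hM := B.max'_mem h0
    set m := B.min' h0
    set M := B.max' h0
    have hm' : m ∈ A ∧ m + h ∈ A := by simpa [hB] using hm
    have hM' : M ∈ A ∧ M + h ∈ A := by simpa [hB] using hM
    have hmM : m ≤ M := B.min'_le _ hM
    have hsub : B ⊆ Finset.Icc m M := by
      intro x hx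
      rw [Finset.mem_Icc]
      exact ⟨B.min'_le _ hx, B.le_max' _ hx⟩
    have hcard := Finset.card_le_card hsub
    rw [Int.card_Icc] at hcard
    have hq := hA m h (M - m) hm'.1 hm'.2 (by
      have : m + (M - m) = M := by ring
      rw [this]; exact hM'.1) (by
      have : m + h + (M - m) = M + h := by ring
      rw [this]; exact hM'.2)
    have h1 : (B.card : ℤ) ≤ (M - m) + 1 := by omega
    have h2 : |M - m| = M - m := abs_of_nonneg (by omega)
    rw [h2] at hq
    have h3 : ((B.card * h.natAbs : ℕ) : ℤ) ≤ ((N + h.natAbs : ℕ) : ℤ) := by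
      push_cast
      have h4 : (0 : ℤ) ≤ |h| := abs_nonneg h
      nlinarith
    exact_mod_cast h3

/-- the majorant of the number of representations -/
noncomputable def rho (N a : ℕ) (i : ℕ) : ℝ := min (a : ℝ) (1 + N / i)

theorem rep_le_rho {N : ℕ} {A : Finset ℤ} (hA : IsFlat N A) (h : ℤ) (h0 : h ≠ 0) :
    (rep A h : ℝ) ≤ rho N A.card h.natAbs := by
  unfold rho
  refine le_min (by exact_mod_cast rep_le_card A h) ?_
  have h1 : (0 : ℝ) < (h.natAbs : ℝ) := by
    have : 0 < h.natAbs := Int.natAbs_pos.mpr h0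
    exact_mod_cast this
  have h2 : (rep A h : ℝ) * h.natAbs ≤ N + h.natAbs := by
    exact_mod_cast rep_mul_le hA h
  have h3 : (1 : ℝ) + N / h.natAbs = (N + h.natAbs) / h.natAbs := by
    field_simp
    ring
  rw [h3, le_div_iff₀ h1]
  exact h2

theorem rho_nonneg (N a i : ℕ) : 0 ≤ rho N a i := by
  unfold rho
  positivity

theorem sum_Ioc_inv_le (t D : ℕ) (h : t ≤ D) :
    ∑ i ∈ Finset.Ioc t D, ((i : ℝ))⁻¹ ≤ 1 + Real.log D - Real.log (t + 1) := by
  have h1 := harmonic_le_one_add_log D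
  have h2 := log_add_one_le_harmonic t
  have h3 : (harmonic D : ℝ) = ∑ i ∈ Finset.Icc 1 D, ((i : ℝ))⁻¹ := by
    simp [harmonic_eq_sum_Icc]
  have h4 : (harmonic t : ℝ) = ∑ i ∈ Finset.Icc 1 t, ((i : ℝ))⁻¹ := by
    simp [harmonic_eq_sum_Icc]
  have h5 : Finset.Icc 1 D = Finset.Icc 1 t ∪ Finset.Ioc t D := by
    ext i; simp only [Finset.mem_Icc, Finset.mem_union, Finset.mem_Ioc]; omega
  have h6 : Disjoint (Finset.Icc 1 t) (Finset.Ioc t D) := by
    rw [Finset.disjoint_left]
    intro i; simp only [Finset.mem_Icc, Finset.mem_Ioc]; omega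
  rw [h5, Finset.sum_union h6] at h3
  push_cast at h2
  linarith

/-- the numerical estimate -/
theorem sum_rho_le {N a D : ℕ} (hN : 1 ≤ N) (ha : 1 ≤ a) (hD : 1 ≤ D) (U : Finset ℕ)
    (hU : U ⊆ Finset.Icc 1 N) (hUD : U.card ≤ D) :
    ∑ i ∈ U, rho N a i ≤ 4 * N + N * Real.log (max 1 (D * a / N)) := by
  set t := N / a with ht
  have hNr : (0 : ℝ) < N := by exact_mod_cast hN
  have har : (0 : ℝ) < a := by exact_mod_cast ha
  have hDr : (0 : ℝ) < D := by exact_mod_cast hD
  have hUN : U.card ≤ N := by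
    have := Finset.card_le_card hU
    simpa using this
  have hpt : ∀ i ∈ U, rho N a i ≤ (if i ≤ t then (a : ℝ) else 0) + 1
      + (if t < i ∧ i ≤ D then (N : ℝ) * (i : ℝ)⁻¹ else 0) + (if D < i then (N : ℝ) / D else 0) := by
    intro i hi
    have hi1 := (Finset.mem_Icc.mp (hU hi)).1
    have hir : (0 : ℝ) < i := by exact_mod_cast hi1
    by_cases h1 : i ≤ t
    · have h2 : rho N a i ≤ a := min_le_left _ _
      have h3 : ¬ (t < i ∧ i ≤ D) := by omega
      rw [if_pos h1, if_neg h3]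
      have h4 : (0 : ℝ) ≤ (if D < i then (N : ℝ) / D else 0) := by
        split_ifs
        · positivity
        · exact le_refl _
      linarith
    · have h2 : rho N a i ≤ 1 + N / i := min_le_right _ _
      rw [if_neg h1]
      by_cases h3 : i ≤ D
      · have h5 : t < i ∧ i ≤ D := ⟨by omega, h3⟩
        have h6 : ¬ D < i := by omega
        rw [if_pos h5, if_neg h6]
        have h7 : (N : ℝ) / i = N * (i : ℝ)⁻¹ := div_eq_mul_inv _ _
        linarith
      · have h5 : ¬ (t < i ∧ i ≤ D) := by omega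
        have h6 : D < i := by omega
        rw [if_neg h5, if_pos h6]
        have h7 : (N : ℝ) / i ≤ N / D := by
          have : (D : ℝ) ≤ i := by exact_mod_cast h6.le
          gcongr
        linarith
  have hsum := Finset.sum_le_sum hpt
  rw [Finset.sum_add_distrib, Finset.sum_add_distrib, Finset.sum_add_distrib] at hsum
  -- first part
  have p1 : ∑ i ∈ U, (if i ≤ t then (a : ℝ) else 0) ≤ N := by
    rw [← Finset.sum_filter, Finset.sum_const, nsmul_eq_mul]
    have hs : U.filter (fun i => i ≤ t) ⊆ Finset.Icc 1 t := by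
      intro i hi
      rw [Finset.mem_filter] at hi
      rw [Finset.mem_Icc]
      exact ⟨(Finset.mem_Icc.mp (hU hi.1)).1, hi.2⟩
    have hc := Finset.card_le_card hs
    rw [Nat.card_Icc, Nat.add_sub_cancel] at hc
    have hc' : (U.filter (fun i => i ≤ t)).card * a ≤ N := by
      refine (Nat.mul_le_mul_right a hc).trans ?_
      exact Nat.div_mul_le_self N a
    exact_mod_cast hc'
  have p2 : ∑ i ∈ U, (1 : ℝ) ≤ N := by
    rw [Finset.sum_const, nsmul_eq_mul, mul_one]
    exact_mod_cast hUN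
  have p4 : ∑ i ∈ U, (if D < i then (N : ℝ) / D else 0) ≤ N := by
    have : ∑ i ∈ U, (if D < i then (N : ℝ) / D else 0) ≤ ∑ i ∈ U, (N : ℝ) / D := by
      apply Finset.sum_le_sum
      intro i _
      split_ifs
      · exact le_refl _
      · positivity
    refine this.trans ?_
    rw [Finset.sum_const, nsmul_eq_mul]
    have h1 : (U.card : ℝ) ≤ D := by exact_mod_cast hUD
    calc (U.card : ℝ) * (N / D) ≤ D * (N / D) := by gcongr
      _ = N := by field_simp
  have p3 : ∑ i ∈ U, (if t < i ∧ i ≤ D then (N : ℝ) * (i : ℝ)⁻¹ else 0)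
      ≤ N + N * Real.log (max 1 (D * a / N)) := by
    have hlog0 : 0 ≤ Real.log (max 1 ((D : ℝ) * a / N)) := Real.log_nonneg (le_max_left _ _)
    rw [← Finset.sum_filter]
    have hs : U.filter (fun i => t < i ∧ i ≤ D) ⊆ Finset.Ioc t D := by
      intro i hi
      rw [Finset.mem_filter] at hi
      rw [Finset.mem_Ioc]
      exact hi.2
    have h1 : ∑ i ∈ U.filter (fun i => t < i ∧ i ≤ D), (N : ℝ) * (i : ℝ)⁻¹
        ≤ ∑ i ∈ Finset.Ioc t D, (N : ℝ) * (i : ℝ)⁻¹ := by
      apply Finset.sum_le_sum_of_subset_of_nonneg hs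
      intro i _ _
      positivity
    refine h1.trans ?_
    rcases Nat.lt_or_ge t D with htD | htD
    · rw [← Finset.mul_sum]
      have h2 := sum_Ioc_inv_le t D htD.le
      have h3 : (N : ℝ) / a < t + 1 := by
        rw [div_lt_iff₀ har]
        have : N < (t + 1) * a := by
          exact (Nat.div_lt_iff_lt_mul ha).mp (by omega)
        exact_mod_cast this
      have h4 : Real.log ((N : ℝ) / a) ≤ Real.log (t + 1) :=
        Real.log_le_log (by positivity) h3.le
      have h5 : Real.log D - Real.log ((N : ℝ) / a) = Real.log ((D : ℝ) * a / N) := by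
        rw [← Real.log_div (by positivity) (by positivity)]
        congr 1
        field_simp
      have h6 : Real.log ((D : ℝ) * a / N) ≤ Real.log (max 1 ((D : ℝ) * a / N)) :=
        Real.log_le_log (by positivity) (le_max_right _ _)
      have h7 : ∑ i ∈ Finset.Ioc t D, ((i : ℝ))⁻¹ ≤ 1 + Real.log (max 1 ((D : ℝ) * a / N)) := by
        linarith
      calc (N : ℝ) * ∑ i ∈ Finset.Ioc t D, ((i : ℝ))⁻¹
          ≤ N * (1 + Real.log (max 1 ((D : ℝ) * a / N))) := by gcongr
        _ = _ := by ring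
    · rw [Finset.Ioc_eq_empty (by omega), Finset.sum_empty]
      positivity
  linarith

theorem sum_natAbs_le (S : Finset ℤ) (f : ℕ → ℝ) (hf : ∀ i, 0 ≤ f i) :
    ∑ h ∈ S, f h.natAbs ≤ 2 * ∑ i ∈ S.image Int.natAbs, f i := by
  rw [Finset.sum_comp f Int.natAbs, Finset.mul_sum]
  apply Finset.sum_le_sum
  intro i _
  rw [nsmul_eq_mul]
  have h1 : ({a ∈ S | a.natAbs = i} : Finset ℤ) ⊆ {(i : ℤ), -(i : ℤ)} := by
    intro x hx
    rw [Finset.mem_filter] at hx
    rw [Finset.mem_insert, Finset.mem_singleton]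
    omega
  have h2 : (#{a ∈ S | a.natAbs = i}) ≤ 2 := (Finset.card_le_card h1).trans Finset.card_le_two
  have h3 : ((#{a ∈ S | a.natAbs = i} : ℕ) : ℝ) ≤ 2 := by exact_mod_cast h2
  exact mul_le_mul_of_nonneg_right h3 (hf i)

theorem main_bound (N : ℕ) (A : Finset ℤ) (hN : 1 ≤ N) (hAN : A ⊆ Finset.Icc 1 (N : ℤ))
    (hA : IsFlat N A) :
    (A.card : ℝ) ^ 2 ≤ N * (9 + 2 * Real.log (max 1 ((diffSet A).card * A.card / N))) := by
  have hNr : (0 : ℝ) < N := by exact_mod_cast hN
  rcases A.eq_empty_or_nonempty with h0 | h0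
  · subst h0
    have : 0 ≤ Real.log (max 1 (((diffSet (∅ : Finset ℤ)).card : ℝ) * ((∅ : Finset ℤ).card : ℝ) / N)) :=
      Real.log_nonneg (le_max_left _ _)
    rw [Finset.card_empty] at this ⊢
    have h9 : (0 : ℝ) ≤ N * (9 + 2 * Real.log (max 1 (((diffSet (∅ : Finset ℤ)).card : ℝ) * ((0 : ℕ) : ℝ) / N))) := by
      positivity
    simpa using h9
  have ha : 1 ≤ A.card := Finset.card_pos.mpr h0
  have haN : A.card ≤ N := by
    have := Finset.card_le_card hAN
    simpa using this
  have hD : 1 ≤ (diffSet A).card := by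
    apply Finset.card_pos.mpr
    unfold diffSet
    exact (h0.product h0).image _
  have hsq : ((A.card : ℝ)) ^ 2 = ∑ h ∈ diffSet A, (rep A h : ℝ) := by
    have := sum_rep A
    exact_mod_cast this
  have h0mem : (0 : ℤ) ∈ diffSet A := by
    obtain ⟨x, hx⟩ := h0
    unfold diffSet
    rw [Finset.mem_image]
    exact ⟨(x, x), by simp [hx], by simp⟩
  rw [← Finset.add_sum_erase _ _ h0mem] at hsq
  have h1 : (rep A 0 : ℝ) ≤ A.card := by exact_mod_cast rep_le_card A 0
  have h2 : ∑ h ∈ (diffSet A).erase 0, (rep A h : ℝ)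
      ≤ ∑ h ∈ (diffSet A).erase 0, rho N A.card h.natAbs := by
    apply Finset.sum_le_sum
    intro h hh
    exact rep_le_rho hA h (Finset.ne_of_mem_erase hh)
  have h3 := sum_natAbs_le ((diffSet A).erase 0) (rho N A.card) (rho_nonneg N A.card)
  set U := ((diffSet A).erase 0).image Int.natAbs with hU
  have hUsub : U ⊆ Finset.Icc 1 N := by
    intro i hi
    rw [hU, Finset.mem_image] at hi
    obtain ⟨h, hh, rfl⟩ := hi
    have hne := Finset.ne_of_mem_erase hh
    have hmem := Finset.mem_of_mem_erase hh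
    unfold diffSet at hmem
    rw [Finset.mem_image] at hmem
    obtain ⟨p, hp, rfl⟩ := hmem
    rw [Finset.mem_product] at hp
    have q1 := Finset.mem_Icc.mp (hAN hp.1)
    have q2 := Finset.mem_Icc.mp (hAN hp.2)
    rw [Finset.mem_Icc]
    omega
  have hUcard : U.card ≤ (diffSet A).card :=
    Finset.card_image_le.trans (Finset.card_le_card (Finset.erase_subset _ _))
  have h4 := sum_rho_le hN ha hD U hUsub hUcard
  have h5 : (A.card : ℝ) ≤ N := by exact_mod_cast haN
  nlinarith

theorem two_of_one {N a D : ℕ} (hN : 1 ≤ N)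
    (h : (a : ℝ) ^ 2 ≤ N * (9 + 2 * Real.log (max 1 (D * a / N))))
    (hD : (D : ℝ) ≤ Real.exp 4985 * a) : (a : ℝ) < 100 * Real.sqrt N := by
  by_contra hcon
  rw [not_lt] at hcon
  have hNr : (0 : ℝ) < N := by exact_mod_cast hN
  set y : ℝ := (a : ℝ) ^ 2 / N with hy
  have hy1 : (10000 : ℝ) ≤ y := by
    rw [hy, le_div_iff₀ hNr]
    have h1 : (100 * Real.sqrt N) ^ 2 ≤ (a : ℝ) ^ 2 := by
      apply pow_le_pow_left₀ (by positivity) hcon
    rw [mul_pow, Real.sq_sqrt hNr.le] at h1
    linarith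
  have hy2 : y ≤ 9 + 2 * Real.log (max 1 (D * a / N)) := by
    rw [hy, div_le_iff₀ hNr]
    linarith
  have hpos : (0 : ℝ) < y := by linarith
  have h1 : max 1 ((D : ℝ) * a / N) ≤ Real.exp 4985 * y := by
    apply max_le
    · have : (1 : ℝ) ≤ Real.exp 4985 := Real.one_le_exp (by norm_num)
      nlinarith
    · rw [hy]
      have : (D : ℝ) * a / N ≤ (Real.exp 4985 * a) * a / N := by gcongr
      calc (D : ℝ) * a / N ≤ (Real.exp 4985 * a) * a / N := this
        _ = _ := by ring
  have h2 : Real.log (max 1 ((D : ℝ) * a / N)) ≤ 4985 + Real.log y := by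
    have h3 := Real.log_le_log (lt_of_lt_of_le one_pos (le_max_left _ _)) h1
    rw [Real.log_mul (Real.exp_pos _).ne' hpos.ne', Real.log_exp] at h3
    exact h3
  have h4 : Real.log y ≤ y / 10000 - 1 + Real.log 10000 := by
    have h5 : Real.log (y / 10000) ≤ y / 10000 - 1 :=
      Real.log_le_sub_one_of_pos (by positivity)
    rw [Real.log_div hpos.ne' (by norm_num)] at h5
    linarith
  have h5 : Real.log 10000 ≤ 14 * Real.log 2 := by
    have : Real.log 10000 ≤ Real.log ((2 : ℝ) ^ 14) := by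
      apply Real.log_le_log (by norm_num)
      norm_num
    rw [Real.log_pow] at this
    exact_mod_cast this
  have h6 := Real.log_two_lt_d9
  linarith

theorem diffSet_biUnion_card (m : ℕ) (a b : Fin m → ℤ)
    (hd : ∀ i j, i ≠ j → Disjoint (Finset.Icc (a i) (b i)) (Finset.Icc (a j) (b j))) :
    (diffSet (Finset.univ.biUnion (fun i => Finset.Icc (a i) (b i)))).card
      ≤ 2 * m * (Finset.univ.biUnion (fun i => Finset.Icc (a i) (b i))).card := by
  have hc : (Finset.univ.biUnion (fun i => Finset.Icc (a i) (b i))).card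
      = ∑ i, (Finset.Icc (a i) (b i)).card := by
    apply Finset.card_biUnion
    intro i _ j _ hij
    exact hd i j hij
  have hsub : diffSet (Finset.univ.biUnion (fun i => Finset.Icc (a i) (b i)))
      ⊆ Finset.univ.biUnion (fun q : Fin m × Fin m =>
        (Finset.Icc (a q.1) (b q.1) ×ˢ Finset.Icc (a q.2) (b q.2)).image (fun p => p.1 - p.2)) := by
    intro h hh
    unfold diffSet at hh
    rw [Finset.mem_image] at hh
    obtain ⟨p, hp, rfl⟩ := hh
    rw [Finset.mem_product, Finset.mem_biUnion, Finset.mem_biUnion] at hp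
    obtain ⟨⟨i, _, hi⟩, ⟨j, _, hj⟩⟩ := hp
    rw [Finset.mem_biUnion]
    refine ⟨(i, j), Finset.mem_univ _, ?_⟩
    rw [Finset.mem_image]
    exact ⟨p, Finset.mem_product.mpr ⟨hi, hj⟩, rfl⟩
  refine (Finset.card_le_card hsub).trans ?_
  refine Finset.card_biUnion_le.trans ?_
  have hpt : ∀ q : Fin m × Fin m,
      ((Finset.Icc (a q.1) (b q.1) ×ˢ Finset.Icc (a q.2) (b q.2)).image
        (fun p => p.1 - p.2)).card
      ≤ (Finset.Icc (a q.1) (b q.1)).card + (Finset.Icc (a q.2) (b q.2)).card := by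
    intro q
    rcases (Finset.Icc (a q.1) (b q.1)).eq_empty_or_nonempty with e1 | e1
    · rw [e1]; simp
    rcases (Finset.Icc (a q.2) (b q.2)).eq_empty_or_nonempty with e2 | e2
    · rw [e2]; simp
    have l1 := Finset.nonempty_Icc.mp e1
    have l2 := Finset.nonempty_Icc.mp e2
    have hs : (Finset.Icc (a q.1) (b q.1) ×ˢ Finset.Icc (a q.2) (b q.2)).image
        (fun p => p.1 - p.2) ⊆ Finset.Icc (a q.1 - b q.2) (b q.1 - a q.2) := by
      intro h hh
      rw [Finset.mem_image] at hh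
      obtain ⟨p, hp, rfl⟩ := hh
      rw [Finset.mem_product, Finset.mem_Icc, Finset.mem_Icc] at hp
      rw [Finset.mem_Icc]
      omega
    refine (Finset.card_le_card hs).trans ?_
    rw [Int.card_Icc, Int.card_Icc, Int.card_Icc]
    omega
  refine (Finset.sum_le_sum (fun q _ => hpt q)).trans ?_
  rw [← Finset.univ_product_univ, Finset.sum_product]
  simp only [Finset.sum_add_distrib, Finset.sum_const, Finset.card_univ, Fintype.card_fin,
    smul_eq_mul]
  rw [hc, ← Finset.mul_sum]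
  apply le_of_eq
  ring

/-- The result. -/
theorem result :
    ∀ (N : ℕ) (A : Finset ℤ), 1 ≤ N → A ⊆ Finset.Icc 1 (N : ℤ) → IsFlat N A →
      ((A.card : ℝ) ^ 2
        ≤ N * (9 + 2 * Real.log (max 1 (((diffSet A).card : ℝ) * (A.card : ℝ) / N)))) ∧
      (((diffSet A).card : ℝ) ≤ Real.exp 4985 * A.card →
        (A.card : ℝ) < 100 * Real.sqrt N) ∧
      (∀ (m : ℕ) (a b : Fin m → ℤ),
        (∀ i j, i ≠ j → Disjoint (Finset.Icc (a i) (b i)) (Finset.Icc (a j) (b j))) →
        A = Finset.univ.biUnion (fun i => Finset.Icc (a i) (b i)) →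
        (m : ℝ) ≤ Real.exp 4984 → (A.card : ℝ) < 100 * Real.sqrt N) := by
  intro N A hN hAN hA
  have h1 := main_bound N A hN hAN hA
  refine ⟨h1, fun h => two_of_one hN h1 h, ?_⟩
  intro m a b hd hAeq hm
  apply two_of_one hN h1
  have h2 := diffSet_biUnion_card m a b hd
  rw [← hAeq] at h2
  have h3 : ((diffSet A).card : ℝ) ≤ 2 * m * A.card := by exact_mod_cast h2
  have h4 : (2 : ℝ) ≤ Real.exp 1 := by
    have := Real.add_one_le_exp (1 : ℝ)
    linarith
  have h5 : Real.exp 4985 = Real.exp 1 * Real.exp 4984 := by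
    rw [← Real.exp_add]; norm_num
  have h6 : (2 : ℝ) * m ≤ Real.exp 4985 := by
    rw [h5]
    apply mul_le_mul h4 hm (by positivity) (by positivity)
  refine h3.trans ?_
  gcongr

end Pool.Agent.Results.MP_cc349e_co.SmallDoubling
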